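import Pool.Agent.Lib_MP_9e7d46_ts.Circle

/-!
MP_9e7d46_co, Q1, for all `k`: two disjoint `k`-dijoins in digraphs with at most four source components or at
most four sink components, and in digraphs whose source components (or sink components) can be placed on a
circle with a non-crossing graph such that for every vertex the components from which it can be reached
(which it reaches) induce a connected subgraph; one may add one arc, or identify a linked class, before.
-/

set_option autoImplicit false
set_option linter.unusedSectionVars false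

namespace Pool.Agent.Results.MP_9e7d46_co.FewSources

/-- number of arcs crossing `X` (in either direction) -/
noncomputable def cr {V E : Type} (tail head : E → V) (X : Set V) : ℕ :=
  {e : E | ¬ (tail e ∈ X ↔ head e ∈ X)}.ncard

/-- there is a directed path (possibly of length 0) from `u` to `v` -/
def Reach {V E : Type} (tail head : E → V) (u v : V) : Prop :=
  Relation.ReflTransGen (fun x y => ∃ e, tail e = x ∧ head e = y) u v

/-- the strong component of `v` -/
def SC {V E : Type} (tail head : E → V) (v : V) : Set V :=
  {w | Reach tail head v w ∧ Reach tail head w v}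

/-- `N` is a linked class: every vertex set `X` which is a union of strong components and separates two
members of `N` is crossed (in either direction) by at least `m` arcs -/
def Linked {V E : Type} (tail head : E → V) (m : ℕ) (N : Set V) : Prop :=
  ∀ X : Set V, (∀ v w, w ∈ SC tail head v → (v ∈ X ↔ w ∈ X)) →
    (∃ n ∈ N, n ∈ X) → (∃ n ∈ N, n ∉ X) → m ≤ cr tail head X

/-- reachability after adding an arc from `t` to `s` -/
def ReachAdd {V E : Type} (tail head : E → V) (s t u v : V) : Prop :=
  Reach tail head u v ∨ (Reach tail head u t ∧ Reach tail head s v)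

/-- reachability after identifying all vertices of `N` -/
def ReachId {V E : Type} (tail head : E → V) (N : Set V) (u v : V) : Prop :=
  Reach tail head u v ∨ ((∃ n ∈ N, Reach tail head u n) ∧ ∃ n ∈ N, Reach tail head n v)

/-- The circle condition for a relation `R`: there are vertices `w 0, …, w (n - 1)`, thought of as placed
on a circle in this order, such that every vertex `v` is `R`-above some `w i`, and a graph `H` on
`0, …, n - 1` without crossing edges such that for every vertex `v` any two `i`, `j` with `R (w i) v` and
`R (w j) v` are joined by a path of `H` all of whose vertices `x` have `R (w x) v`. -/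
def Circle {V : Type} (R : V → V → Prop) : Prop :=
  ∃ (n : ℕ) (w : Fin n → V) (H : Finset (Fin n × Fin n)),
    (∀ v, ∃ i, R (w i) v) ∧
    (∀ e ∈ H, e.1 < e.2) ∧
    (∀ e ∈ H, ∀ f ∈ H, ¬ (e.1 < f.1 ∧ f.1 < e.2 ∧ e.2 < f.2)) ∧
    (∀ v i j, R (w i) v → R (w j) v → Relation.ReflTransGen
      (fun x y => ((x, y) ∈ H ∨ (y, x) ∈ H) ∧ R (w x) v ∧ R (w y) v) i j)

/-- `R` is the reachability relation after adding one arc, or after identifying one linked class
(`s = t` gives the reachability relation of `D` itself) -/
def Enlarged {V E : Type} (tail head : E → V) (k : ℕ) (R : V → V → Prop) : Prop :=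
  (∃ s t : V, ∀ u v, R u v ↔ ReachAdd tail head s t u v) ∨
  (∃ N : Set V, Linked tail head (2 * k) N ∧ ∀ u v, R u v ↔ ReachId tail head N u v)

/-- The conclusion: two disjoint `k`-dijoins. -/
def TwoKDijoins {V E : Type} (tail head : E → V) (k : ℕ) : Prop :=
  ∃ J₁ J₂ : Finset E, Disjoint J₁ J₂ ∧
    ∀ U : Set V, U.Nonempty → U ≠ Set.univ →
      (∀ e : E, ¬ (head e ∈ U ∧ tail e ∉ U)) →
      k ≤ {e : E | e ∈ J₁ ∧ tail e ∈ U ∧ head e ∉ U}.ncard ∧
      k ≤ {e : E | e ∈ J₂ ∧ tail e ∈ U ∧ head e ∉ U}.ncard

open Pool.Agent.DJ9e OS9e TS9e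

section aux

variable {V E : Type} [Fintype V] [Fintype E] (tail head : E → V)

theorem cr_eq (X : Set V) : cr tail head X = dd tail head X := (dd_eq_ncard tail head X).symm

theorem dijoins_of_orient {k : ℕ}
    (h : ∃ O : E → Bool, ∀ U : Set V, U.Nonempty → Uᶜ.Nonempty → Sh tail head U →
      k ≤ inn tail head O U) : TwoKDijoins tail head k := by
  obtain ⟨O, hO⟩ := h
  refine ⟨Finset.univ.filter fun e => O e = true, Finset.univ.filter fun e => O e = false,
    ?_, ?_⟩
  · rw [Finset.disjoint_filter]
    intro e _ h1 h2
    rw [h1] at h2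
    exact absurd h2 (by simp)
  · intro U hU hne hcl
    have hUc : Uᶜ.Nonempty := Set.nonempty_compl.2 hne
    have hS : Sh tail head U := Or.inl fun e he => by
      by_contra hc
      exact hcl e ⟨he, hc⟩
    refine ⟨?_, ?_⟩
    · rw [← inn_closed_true tail head O U hcl]
      exact hO Uᶜ hUc (by rwa [compl_compl]) ((Sh_compl tail head U).2 hS)
    · rw [← inn_closed_false tail head O U hcl]
      exact hO U hU hUc hS

theorem orient_swap {k : ℕ}
    (h : ∃ O : E → Bool, ∀ U : Set V, U.Nonempty → Uᶜ.Nonempty → Sh head tail U →
      k ≤ inn head tail O U) : ∃ O : E → Bool, ∀ U : Set V, U.Nonempty → Uᶜ.Nonempty →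
      Sh tail head U → k ≤ inn tail head O U := by
  obtain ⟨O, hO⟩ := h
  refine ⟨fun a => !(O a), fun U hU hUc hS => ?_⟩
  rw [← inn_swap]
  exact hO U hU hUc ((Sh_swap tail head U).2 hS)

theorem sc_swap (v : V) : comp head tail v = comp tail head v := by
  ext w
  unfold comp
  simp only [Set.mem_ofPred_eq, rch_swap]
  exact and_comm

theorem cn_of {n : ℕ} {R : V → V → Prop} {w : Fin n → V} {H : Finset (Fin n × Fin n)} {v : V}
    {i j : Fin n} (h : Relation.ReflTransGen
      (fun x y => ((x, y) ∈ H ∨ (y, x) ∈ H) ∧ R (w x) v ∧ R (w y) v) i j) :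
    Cn {e | e ∈ H ∧ R (w e.1) v ∧ R (w e.2) v} i j := by
  induction h with
  | refl => exact Cn.refl _ _
  | tail _ hbc ih =>
    obtain ⟨h1, h2, h3⟩ := hbc
    refine Cn.trans ih (Relation.ReflTransGen.single ?_)
    rcases h1 with h1 | h1
    · exact Or.inl ⟨h1, h2, h3⟩
    · exact Or.inr ⟨h1, h3, h2⟩

theorem circ_of {R R' : V → V → Prop} (hR : ∀ u v, R u v ↔ R' u v) (h : Circle R) :
    ∃ (n : ℕ) (w : Fin n → V) (H : Finset (Fin n × Fin n)), Circ R' w H := by
  have : R = R' := by
    funext u v
    exact propext (hR u v)
  subst this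
  obtain ⟨n, w, H, h1, h2, h3, h4⟩ := h
  exact ⟨n, w, H, h1, h2, h3, fun v i j hi hj => cn_of (h4 v i j hi hj)⟩

end aux

/-- Main theorem. -/
theorem result :
    ∀ (V E : Type) [Fintype V] [Fintype E] (tail head : E → V) (k : ℕ),
      -- every directed cut has at least `2 k` arcs
      (∀ U : Set V, U.Nonempty → U ≠ Set.univ →
          (∀ e : E, ¬ (head e ∈ U ∧ tail e ∉ U)) →
          2 * k ≤ {e : E | tail e ∈ U ∧ head e ∉ U}.ncard) →
      -- the circle condition, for sources or for sinks, possibly after adding one arc or after
      -- identifying one linked class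
      (∃ R : V → V → Prop, Enlarged tail head k R ∧ (Circle R ∨ Circle fun u v => R v u)) ∨
      -- in particular: at most four source components, or at most four sink components
      (∃ a b c d : V, (∀ v, Reach tail head a v ∨ Reach tail head b v ∨ Reach tail head c v ∨
            Reach tail head d v) ∨
          (∀ v, Reach tail head v a ∨ Reach tail head v b ∨ Reach tail head v c ∨
            Reach tail head v d)) →
      TwoKDijoins tail head k := by
  intro V E _ _ tail head k hcut hcase
  rcases Nat.lt_or_ge k 3 with hk | hk
  · exact two_dijoins tail head k hcut (fun X _ _ => by omega)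
  apply dijoins_of_orient
  have hd : ∀ U : Set V, U.Nonempty → Uᶜ.Nonempty → NoIn tail head U →
      2 * k ≤ dd tail head U := by
    intro U hU hUc hin
    have hcl : ∀ e, ¬ (head e ∈ U ∧ tail e ∉ U) := fun e he => he.2 (hin e he.1)
    rw [dd_closed tail head U hcl]
    exact hcut U hU (Set.nonempty_compl.1 hUc) hcl
  have hd' : ∀ U : Set V, U.Nonempty → Uᶜ.Nonempty → NoIn head tail U →
      2 * k ≤ dd head tail U := by
    intro U hU hUc hin
    rw [dd_swap, ← dd_compl]
    exact hd Uᶜ hUc (by rwa [compl_compl]) (fun a ha hc => ha (hin a hc))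
  have hlink : ∀ N : Set V, Linked tail head (2 * k) N → ∀ X : Set V,
      (∀ v w, w ∈ comp tail head v → (v ∈ X ↔ w ∈ X)) → NSep N X → 2 * k ≤ dd tail head X := by
    intro N hN X hX hs
    rw [← cr_eq]
    exact hN X hX hs.1 hs.2
  have hlink' : ∀ N : Set V, Linked tail head (2 * k) N → ∀ X : Set V,
      (∀ v w, w ∈ comp head tail v → (v ∈ X ↔ w ∈ X)) → NSep N X → 2 * k ≤ dd head tail X := by
    intro N hN X hX hs
    rw [dd_swap]
    refine hlink N hN X ?_ hs
    intro v w hw
    exact hX v w (by rw [sc_swap]; exact hw)
  rcases hcase with ⟨R, hR, hC⟩ | ⟨a, b, c, d, h | h⟩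
  · rcases hR with ⟨p, q, hR⟩ | ⟨N, hN, hR⟩
    · rcases hC with h | h
      · obtain ⟨n, w, H, hE⟩ := circ_of (R' := Rst tail head p q) (fun u v => hR u v) h
        exact circle_st hk tail head hd p q w H hE
      · apply orient_swap
        obtain ⟨n, w, H, hE⟩ := circ_of (R' := Rst head tail q p) (fun u v => by
          have e : ∀ x y, Rch head tail x y ↔ Reach tail head y x :=
            fun x y => rch_swap tail head x y
          rw [hR]
          unfold Rst ReachAdd
          rw [e, e, e]
          exact or_congr Iff.rfl and_comm) h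
        exact circle_st hk head tail hd' q p w H hE
    · rcases hC with h | h
      · obtain ⟨n, w, H, hE⟩ := circ_of (R' := Rn tail head N) (fun u v => hR u v) h
        exact circle_hub_quot hk tail head N hd (hlink N hN) w H hE
      · apply orient_swap
        obtain ⟨n, w, H, hE⟩ := circ_of (R' := Rn head tail N) (fun u v => by
          have e : ∀ x y, Rch head tail x y ↔ Reach tail head y x :=
            fun x y => rch_swap tail head x y
          rw [hR]
          unfold Rn ReachId
          simp only [e]
          exact or_congr Iff.rfl and_comm) h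
        exact circle_hub_quot hk head tail N hd' (hlink' N hN) w H hE
  · exact four_sources hk tail head hd a b c d h
  · apply orient_swap
    refine four_sources hk head tail hd' a b c d (fun v => ?_)
    simp only [rch_swap]
    exact h v

end Pool.Agent.Results.MP_9e7d46_co.FewSources
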