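import Pool.Agent.Lib_MP_9e7d46_os.Quot
import Pool.Agent.Lib_MP_9e7d46_os.St

/-!
MP_9e7d46_co, Q1, for all `k`: two disjoint `k`-dijoins in digraphs with a hub or with two vertices `s`,
`t` such that every odd strong component is reachable from `s` or reaches `t`, and more generally in
digraphs whose directed cuts (apart from those which separate two members of a highly connected class,
or `s` from `t`, and from robust ones) are covered by one-sided families.
-/

set_option autoImplicit false
set_option linter.unusedSectionVars false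

namespace Pool.Agent.Results.MP_9e7d46_co.OneSided

/-- number of arcs crossing `X` (in either direction) -/
noncomputable def cr {V E : Type} (tail head : E → V) (X : Set V) : ℕ :=
  {e : E | ¬ (tail e ∈ X ↔ head e ∈ X)}.ncard

/-- number of arcs leaving `X` -/
noncomputable def lv {V E : Type} (tail head : E → V) (X : Set V) : ℕ :=
  {e : E | tail e ∈ X ∧ head e ∉ X}.ncard

/-- number of arcs entering `X` -/
noncomputable def en {V E : Type} (tail head : E → V) (X : Set V) : ℕ :=
  {e : E | head e ∈ X ∧ tail e ∉ X}.ncard

/-- there is a directed path (possibly of length 0) from `u` to `v` -/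
def Reach {V E : Type} (tail head : E → V) (u v : V) : Prop :=
  Relation.ReflTransGen (fun x y => ∃ e, tail e = x ∧ head e = y) u v

/-- the strong component of `v` -/
def SC {V E : Type} (tail head : E → V) (v : V) : Set V :=
  {w | Reach tail head v w ∧ Reach tail head w v}

/-- `N` is a linked class: every vertex set `X` which is a union of strong components and separates two
members of `N` is crossed (in either direction) by at least `m` arcs -/
def Linked {V E : Type} (tail head : E → V) (m : ℕ) (N : Set V) : Prop :=
  ∀ X : Set V, (∀ v w, w ∈ SC tail head v → (v ∈ X ↔ w ∈ X)) →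
    (∃ n ∈ N, n ∈ X) → (∃ n ∈ N, n ∉ X) → m ≤ cr tail head X

/-- the number of strong components meeting `U` which are crossed by an odd number of arcs -/
noncomputable def oddSC {V E : Type} (tail head : E → V) (U : Set V) : ℕ :=
  {C : Set V | ∃ v ∈ U, C = SC tail head v ∧ Odd (cr tail head C)}.ncard

/-- The conclusion: two disjoint `k`-dijoins. -/
def TwoKDijoins {V E : Type} (tail head : E → V) (k : ℕ) : Prop :=
  ∃ J₁ J₂ : Finset E, Disjoint J₁ J₂ ∧
    ∀ U : Set V, U.Nonempty → U ≠ Set.univ →
      (∀ e : E, ¬ (head e ∈ U ∧ tail e ∉ U)) →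
      k ≤ {e : E | e ∈ J₁ ∧ tail e ∈ U ∧ head e ∉ U}.ncard ∧
      k ≤ {e : E | e ∈ J₂ ∧ tail e ∈ U ∧ head e ∉ U}.ncard

open Pool.Agent.DJ9e OS9e

section aux

variable {V E : Type} [Fintype V] [Fintype E] (tail head : E → V)

theorem cr_eq (X : Set V) : cr tail head X = dd tail head X := (dd_eq_ncard tail head X).symm

theorem lv_sub_en (X : Set V) :
    (lv tail head X : ℤ) - en tail head X = xs (bb tail head) X := by
  classical
  rw [xs_bb]
  unfold lv en
  rw [Set.ncard_eq_toFinset_card', Set.ncard_eq_toFinset_card', Set.toFinset_ofPred,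
    Set.toFinset_ofPred, Finset.card_filter, Finset.card_filter]
  push_cast
  rw [← Finset.sum_sub_distrib]
  refine Finset.sum_congr rfl fun a _ => ?_
  by_cases h1 : tail a ∈ X <;> by_cases h2 : head a ∈ X <;> simp [h1, h2]

theorem dijoins_of_orient {k : ℕ}
    (h : ∃ O : E → Bool, ∀ U : Set V, U.Nonempty → Uᶜ.Nonempty → Sh tail head U →
      k ≤ inn tail head O U) : TwoKDijoins tail head k := by
  obtain ⟨O, hO⟩ := h
  refine ⟨Finset.univ.filter fun e => O e = true, Finset.univ.filter fun e => O e = false,
    ?_, ?_⟩
  · rw [Finset.disjoint_filter]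
    intro e _ h1 h2
    rw [h1] at h2
    exact absurd h2 (by simp)
  · intro U hU hne hcl
    have hUc : Uᶜ.Nonempty := Set.nonempty_compl.2 hne
    have hS : Sh tail head U := Or.inl fun e he => by
      by_contra hc
      exact hcl e ⟨he, hc⟩
    refine ⟨?_, ?_⟩
    · rw [← inn_closed_true tail head O U hcl]
      exact hO Uᶜ hUc (by rwa [compl_compl]) ((Sh_compl tail head U).2 hS)
    · rw [← inn_closed_false tail head O U hcl]
      exact hO U hU hUc hS

theorem orient_swap {k : ℕ}
    (h : ∃ O : E → Bool, ∀ U : Set V, U.Nonempty → Uᶜ.Nonempty → Sh head tail U →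
      k ≤ inn head tail O U) : ∃ O : E → Bool, ∀ U : Set V, U.Nonempty → Uᶜ.Nonempty →
      Sh tail head U → k ≤ inn tail head O U := by
  obtain ⟨O, hO⟩ := h
  refine ⟨fun a => !(O a), fun U hU hUc hS => ?_⟩
  rw [← inn_swap]
  exact hO U hU hUc ((Sh_swap tail head U).2 hS)

theorem sc_swap (v : V) : comp head tail v = comp tail head v := by
  ext w
  unfold comp
  simp only [Set.mem_ofPred_eq, rch_swap]
  exact and_comm

end aux

/-- Main theorem. -/
theorem result :
    ∀ (V E : Type) [Fintype V] [Fintype E] (tail head : E → V) (k : ℕ),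
      -- every directed cut has at least `2 k` arcs
      (∀ U : Set V, U.Nonempty → U ≠ Set.univ →
          (∀ e : E, ¬ (head e ∈ U ∧ tail e ∉ U)) →
          2 * k ≤ {e : E | tail e ∈ U ∧ head e ∉ U}.ncard) →
      -- (A) every strong component crossed by an odd number of arcs is reachable from `s` or reaches `t`
      ((∃ s t : V, ∀ v, Odd (cr tail head (SC tail head v)) →
            Reach tail head s v ∨ Reach tail head v t) ∨
      -- (H1) a hub which reaches every strong component with more entering than leaving arcs
       (∃ R : Set V, R.Nonempty ∧ Linked tail head (2 * k) R ∧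
          ∀ v, lv tail head (SC tail head v) < en tail head (SC tail head v) →
            ∃ r ∈ R, Reach tail head r v) ∨
      -- (H2) a hub reached from every strong component with more leaving than entering arcs
       (∃ R : Set V, R.Nonempty ∧ Linked tail head (2 * k) R ∧
          ∀ v, en tail head (SC tail head v) < lv tail head (SC tail head v) →
            ∃ r ∈ R, Reach tail head v r) ∨
      -- (H3) a hub comparable with every strong component crossed by an odd number of arcs
       (∃ R : Set V, R.Nonempty ∧ Linked tail head (2 * k) R ∧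
          ∀ v, Odd (cr tail head (SC tail head v)) →
            ∃ r ∈ R, Reach tail head r v ∨ Reach tail head v r) ∨
      -- (G) a class `P` of sets (those separating two members of a linked class `N`, or those
      -- containing `s` but not `t`), a finite family of sides `S i` (source sides or sink sides), and
      -- disjoint (on the odd strong components) sets `B i ⊆ S i`
       (∃ (P : Set V → Prop) (ι : Type) (_ : Fintype ι) (S B : ι → Set V) (src : ι → Bool),
          ((∃ N : Set V, Linked tail head (2 * k) N ∧
              ∀ U, P U → (∃ n ∈ N, n ∈ U) ∧ (∃ n ∈ N, n ∉ U)) ∨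
            (∃ s t : V, ∀ U, P U → s ∈ U ∧ t ∉ U)) ∧
          (∀ i, src i = true → ∀ e, head e ∈ S i → tail e ∈ S i) ∧
          (∀ i, src i = false → ∀ e, tail e ∈ S i → head e ∈ S i) ∧
          (∀ i, B i ⊆ S i) ∧
          (∀ i v w, w ∈ SC tail head v → (v ∈ B i ↔ w ∈ B i)) ∧
          (∀ v, Odd (cr tail head (SC tail head v)) → ∀ i j, v ∈ B i → v ∈ B j → i = j) ∧
          (∀ i, ∀ Z : Set V, Z.Nonempty → Z ⊆ S i →
            (src i = true → ∀ e, head e ∈ Z → tail e ∈ Z) →
            (src i = false → ∀ e, tail e ∈ Z → head e ∈ Z) →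
            2 * k + oddSC tail head (Z \ B i) ≤ cr tail head Z) ∧
          (∀ U : Set V, U.Nonempty → U ≠ Set.univ → (∀ e, head e ∈ U → tail e ∈ U) →
            P U ∨
            (∃ i, src i = true ∧ U ⊆ S i) ∨
            (∃ i, src i = false ∧ Uᶜ ⊆ S i) ∨
            2 * k + oddSC tail head U ≤ cr tail head U ∨
            2 * k + oddSC tail head Uᶜ ≤ cr tail head U))) →
      TwoKDijoins tail head k := by
  intro V E _ _ tail head k hcut hcase
  rcases Nat.lt_or_ge k 3 with hk | hk
  · exact two_dijoins tail head k hcut (fun X _ _ => by omega)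
  apply dijoins_of_orient
  have hd : ∀ U : Set V, U.Nonempty → Uᶜ.Nonempty → NoIn tail head U →
      2 * k ≤ dd tail head U := by
    intro U hU hUc hin
    have hcl : ∀ e, ¬ (head e ∈ U ∧ tail e ∉ U) := fun e he => he.2 (hin e he.1)
    rw [dd_closed tail head U hcl]
    exact hcut U hU (Set.nonempty_compl.1 hUc) hcl
  have hlink : ∀ N : Set V, Linked tail head (2 * k) N → ∀ X : Set V,
      (∀ v w, w ∈ comp tail head v → (v ∈ X ↔ w ∈ X)) → NSep N X → 2 * k ≤ dd tail head X := by
    intro N hN X hX hs
    rw [← cr_eq]
    exact hN X hX hs.1 hs.2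
  have hodd : ∀ U, oddSC tail head U = oddc tail head U := by
    intro U
    unfold oddSC oddc
    simp only [cr_eq]
    rfl
  rcases hcase with ⟨p, q, h1⟩ | ⟨R, h1, h2, h3⟩ | ⟨R, h1, h2, h3⟩ | ⟨R, h1, h2, h3⟩ |
    ⟨P, ι, _, S, B, src, h1, h3, h4, h5, h6, h7, h8, h9⟩
  · refine st_odd_quot tail head hk p q hd ?_
    intro v hv
    rw [← cr_eq] at hv
    exact h1 v hv
  · refine hub_quot tail head hk R h1 hd (hlink R h2) ?_
    intro v hv
    rw [← lv_sub_en] at hv
    exact h3 v (by
      have : SC tail head v = comp tail head v := rfl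
      rw [this]
      omega)
  · apply orient_swap
    refine hub_quot head tail hk R h1 ?_ ?_ ?_
    · intro U hU hUc hin
      rw [dd_swap, ← dd_compl]
      exact hd Uᶜ hUc (by rwa [compl_compl]) (fun a ha hc => ha (hin a hc))
    · intro X hX hs
      rw [dd_swap]
      refine hlink R h2 X ?_ hs
      intro v w hw
      exact hX v w (by rw [sc_swap]; exact hw)
    · intro v hv
      rw [sc_swap] at hv
      have hneg : xs (bb head tail) (comp tail head v) =
          - xs (bb tail head) (comp tail head v) := by
        rw [← xs_neg']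
        congr 1
        funext w
        exact bb_swap tail head w
      rw [hneg, ← lv_sub_en] at hv
      obtain ⟨r, hr, h⟩ := h3 v (by
        have : SC tail head v = comp tail head v := rfl
        rw [this]
        omega)
      exact ⟨r, hr, (rch_swap tail head r v).2 h⟩
  · refine hub_odd_quot tail head hk R h1 hd (hlink R h2) ?_
    intro v hv
    rw [← cr_eq] at hv
    exact h3 v hv
  · have c3 : ∀ v, Odd (dd tail head (comp tail head v)) → ∀ i j, v ∈ B i → v ∈ B j → i = j := by
      intro v hv
      rw [← cr_eq] at hv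
      exact h7 v hv
    have c4 : ∀ i, ∀ Z : Set V, Z.Nonempty → Z ⊆ S i →
        ((!(src i)) = true → NoOut tail head Z) → ((!(src i)) = false → NoIn tail head Z) →
        2 * k + oddc tail head (Z \ B i) ≤ dd tail head Z := by
      intro i Z hZ hZS c1 c2
      rw [← hodd, ← cr_eq]
      exact h8 i Z hZ hZS (fun hi => c2 (by simp [hi])) (fun hi => c1 (by simp [hi]))
    rcases h1 with ⟨N, hN, hPN⟩ | ⟨p, q, hpq⟩
    · refine gen_quot tail head hk N hd (hlink N hN) S (fun i => !(src i)) B
        (fun i hi => h4 i (by simpa using hi)) (fun i hi => h3 i (by simpa using hi)) h5 h6 c3 c4 ?_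
      intro U hU hUc hin
      rcases h9 U hU (Set.nonempty_compl.1 hUc) hin with h | ⟨i, hi, h⟩ | ⟨i, hi, h⟩ | h | h
      · exact Or.inl (hPN U h)
      · exact Or.inr (Or.inl ⟨i, by simp [hi], h⟩)
      · exact Or.inr (Or.inr (Or.inl ⟨i, by simp [hi], h⟩))
      · rw [hodd, cr_eq] at h
        exact Or.inr (Or.inr (Or.inr (Or.inl h)))
      · rw [hodd, cr_eq] at h
        exact Or.inr (Or.inr (Or.inr (Or.inr h)))
    · refine gen_st_quot tail head hk p q hd S (fun i => !(src i)) B
        (fun i hi => h4 i (by simpa using hi)) (fun i hi => h3 i (by simpa using hi)) h5 h6 c3 c4 ?_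
      intro U hU hUc hin
      rcases h9 U hU (Set.nonempty_compl.1 hUc) hin with h | ⟨i, hi, h⟩ | ⟨i, hi, h⟩ | h | h
      · exact Or.inl (hpq U h)
      · exact Or.inr (Or.inl ⟨i, by simp [hi], h⟩)
      · exact Or.inr (Or.inr (Or.inl ⟨i, by simp [hi], h⟩))
      · rw [hodd, cr_eq] at h
        exact Or.inr (Or.inr (Or.inr (Or.inl h)))
      · rw [hodd, cr_eq] at h
        exact Or.inr (Or.inr (Or.inr (Or.inr h)))

end Pool.Agent.Results.MP_9e7d46_co.OneSided
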