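import Pool.Agent.Lib_MP_9e7d46_ao.Signs
import Pool.Agent.Lib_MP_9e7d46_co.Final

/-!
MP_9e7d46_co, Q1, for all `k`: two disjoint `k`-dijoins in every digraph whose directed cuts have at least
`2k+1` arcs; and in every digraph whose directed cuts have at least `2k` arcs if there is a vertex `r` such
that every directed cut with exactly `2k` arcs has on both sides a vertex comparable with `r`.
-/

set_option autoImplicit false
set_option linter.unusedSectionVars false

namespace Pool.Agent.Results.MP_9e7d46_co.PlusOne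

/-- there is a directed path (possibly of length 0) from `u` to `v` -/
def Reach {V E : Type} (tail head : E → V) (u v : V) : Prop :=
  Relation.ReflTransGen (fun x y => ∃ e, tail e = x ∧ head e = y) u v

/-- `u` and `v` are comparable: there is a directed path from `u` to `v` or from `v` to `u` -/
def Comparable {V E : Type} (tail head : E → V) (u v : V) : Prop :=
  Reach tail head u v ∨ Reach tail head v u

/-- The conclusion: two disjoint `k`-dijoins. -/
def TwoKDijoins {V E : Type} (tail head : E → V) (k : ℕ) : Prop :=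
  ∃ J₁ J₂ : Finset E, Disjoint J₁ J₂ ∧
    ∀ U : Set V, U.Nonempty → U ≠ Set.univ →
      (∀ e : E, ¬ (head e ∈ U ∧ tail e ∉ U)) →
      k ≤ {e : E | e ∈ J₁ ∧ tail e ∈ U ∧ head e ∉ U}.ncard ∧
      k ≤ {e : E | e ∈ J₂ ∧ tail e ∈ U ∧ head e ∉ U}.ncard

open Pool.Agent.DJ9e OS9e AO9e

section aux

variable {V E : Type} [Fintype V] [Fintype E] (tail head : E → V)

theorem dijoins_of_orient {k : ℕ}
    (h : ∃ O : E → Bool, ∀ U : Set V, U.Nonempty → Uᶜ.Nonempty → Sh tail head U →
      k ≤ inn tail head O U) : TwoKDijoins tail head k := by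
  obtain ⟨O, hO⟩ := h
  refine ⟨Finset.univ.filter fun e => O e = true, Finset.univ.filter fun e => O e = false,
    ?_, ?_⟩
  · rw [Finset.disjoint_filter]
    intro e _ h1 h2
    rw [h1] at h2
    exact absurd h2 (by simp)
  · intro U hU hne hcl
    have hUc : Uᶜ.Nonempty := Set.nonempty_compl.2 hne
    have hS : Sh tail head U := Or.inl fun e he => by
      by_contra hc
      exact hcl e ⟨he, hc⟩
    refine ⟨?_, ?_⟩
    · rw [← inn_closed_true tail head O U hcl]
      exact hO Uᶜ hUc (by rwa [compl_compl]) ((Sh_compl tail head U).2 hS)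
    · rw [← inn_closed_false tail head O U hcl]
      exact hO U hU hUc hS

end aux

/-- Main theorem. -/
theorem result :
    ∀ (V E : Type) [Fintype V] [Fintype E] (tail head : E → V) (k : ℕ),
      -- every directed cut has at least `2 k` arcs
      (∀ U : Set V, U.Nonempty → U ≠ Set.univ →
          (∀ e : E, ¬ (head e ∈ U ∧ tail e ∉ U)) →
          2 * k ≤ {e : E | tail e ∈ U ∧ head e ∉ U}.ncard) →
      -- the directed cuts with exactly `2 k` arcs have on both sides a vertex comparable with `r`
      -- (in particular, this holds if every directed cut has at least `2 k + 1` arcs)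
      (∃ r : V, ∀ U : Set V, U.Nonempty → U ≠ Set.univ →
          (∀ e : E, ¬ (head e ∈ U ∧ tail e ∉ U)) →
          {e : E | tail e ∈ U ∧ head e ∉ U}.ncard = 2 * k →
          (∃ u ∈ U, Comparable tail head u r) ∧ (∃ w, w ∉ U ∧ Comparable tail head w r)) →
      TwoKDijoins tail head k := by
  intro V E _ _ tail head k hcut ⟨r, hr⟩
  rcases Nat.lt_or_ge k 3 with hk | hk
  · exact two_dijoins tail head k hcut (fun X _ _ => by omega)
  apply dijoins_of_orient
  have hd : ∀ U : Set V, U.Nonempty → U ≠ Set.univ → NoIn tail head U →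
      2 * k ≤ dd tail head U ∧ (dd tail head U = 2 * k →
        (∃ u ∈ U, Comparable tail head u r) ∧ (∃ w, w ∉ U ∧ Comparable tail head w r)) := by
    intro U hU hne hin
    have hcl : ∀ e, ¬ (head e ∈ U ∧ tail e ∉ U) := fun e he => he.2 (hin e he.1)
    rw [dd_closed tail head U hcl]
    exact ⟨hcut U hU hne hcl, hr U hU hne hcl⟩
  refine orient_fin hk tail head r (exists_join ?_ ?_)
  · intro U hU hrU hin
    have hne : U ≠ Set.univ := fun h => hrU (h ▸ Set.mem_univ r)
    obtain ⟨h1, h2⟩ := hd U hU hne hin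
    refine ⟨h1, fun he => ?_⟩
    obtain ⟨⟨u, hu, h3 | h3⟩, -⟩ := h2 he
    · exact ⟨u, hu, h3⟩
    · exact absurd (closed_of_noIn hin hu h3) hrU
  · intro U hU hrU hin
    have hout : NoIn tail head Uᶜ := fun a ha hc => ha (hin a hc)
    have hne : Uᶜ ≠ Set.univ := fun h => hU.ne_empty (Set.compl_univ_iff.1 h)
    obtain ⟨h1, h2⟩ := hd Uᶜ ⟨r, hrU⟩ hne hout
    rw [dd_swap, ← dd_compl]
    refine ⟨h1, fun he => ?_⟩
    obtain ⟨-, w, hw, h3⟩ := h2 he
    rw [Set.notMem_compl_iff] at hw
    refine ⟨w, hw, ?_⟩
    rw [rch_swap]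
    rcases h3 with h3 | h3
    · exact absurd (closed_of_noOut (s := tail) (t := head) (Z := U) hin hw h3) hrU
    · exact h3

end Pool.Agent.Results.MP_9e7d46_co.PlusOne
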