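import Pool.Agent.Lib_MP_9e7d46_co.Final

/-!
# Two disjoint k-dijoins: the case k = 2, and all k under a gap condition

`tail, head : E → V` is a finite digraph (loops and parallel arcs allowed).  The directed cuts
are the sets of arcs leaving `U`, for the nonempty proper `U` entered by no arc.
-/

set_option autoImplicit false

namespace Pool.Agent.Results.MP_9e7d46_co.TwoDijoins

/-- All arcs between `W` and its complement go the same way: no arc enters `W`, or no arc
leaves `W`.  A nonempty proper `W` with this property is one of the two sides of a directed cut. -/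
def OneWay {V E : Type} (tail head : E → V) (W : Set V) : Prop :=
  (∀ e : E, ¬ (head e ∈ W ∧ tail e ∉ W)) ∨ (∀ e : E, ¬ (tail e ∈ W ∧ head e ∉ W))

/-- `X` contains a nonempty set `W` which is one of the two sides of a directed cut. -/
def ContainsSide {V E : Type} (tail head : E → V) (X : Set V) : Prop :=
  ∃ W : Set V, W.Nonempty ∧ W ⊆ X ∧ OneWay tail head W

/-- If every directed cut has at least `2 * k` arcs, and every set of vertices `X` such that both
`X` and its complement contain a side of a directed cut is crossed by at most `3` or by at least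
`2 * k` arcs (no condition when `k ≤ 2`), then there are two disjoint `k`-dijoins. -/
theorem result :
    ∀ (V E : Type) [Fintype V] [Fintype E] (tail head : E → V) (k : ℕ),
      (∀ U : Set V, U.Nonempty → U ≠ Set.univ →
          (∀ e : E, ¬ (head e ∈ U ∧ tail e ∉ U)) →
          2 * k ≤ {e : E | tail e ∈ U ∧ head e ∉ U}.ncard) →
      (k ≤ 2 ∨ ∀ X : Set V, ContainsSide tail head X → ContainsSide tail head Xᶜ →
          {e : E | ¬ (tail e ∈ X ↔ head e ∈ X)}.ncard ≤ 3 ∨
          2 * k ≤ {e : E | ¬ (tail e ∈ X ↔ head e ∈ X)}.ncard) →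
      ∃ J₁ J₂ : Finset E, Disjoint J₁ J₂ ∧
        ∀ U : Set V, U.Nonempty → U ≠ Set.univ →
          (∀ e : E, ¬ (head e ∈ U ∧ tail e ∉ U)) →
          k ≤ {e : E | e ∈ J₁ ∧ tail e ∈ U ∧ head e ∉ U}.ncard ∧
          k ≤ {e : E | e ∈ J₂ ∧ tail e ∈ U ∧ head e ∉ U}.ncard := by
  intro V E _ _ tail head k h hX
  refine Pool.Agent.DJ9e.two_dijoins tail head k h ?_
  intro X h1 h2
  rcases hX with hk | hX
  · rcases Nat.lt_or_ge 3 (Pool.Agent.DJ9e.dd tail head X) with h3 | h3
    · right; omega
    · left; exact h3
  · rw [Pool.Agent.DJ9e.dd_eq_ncard]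
    have conv : ∀ Y : Set V, Pool.Agent.DJ9e.Thick tail head Y → ContainsSide tail head Y := by
      rintro Y ⟨W, hW, hWY, hS⟩
      refine ⟨W, hW, hWY, ?_⟩
      rcases hS with hS | hS
      · exact Or.inl fun e he => he.2 (hS e he.1)
      · exact Or.inr fun e he => he.2 (hS e he.1)
    exact hX X (conv X h1) (conv _ h2)

end Pool.Agent.Results.MP_9e7d46_co.TwoDijoins
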